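import Pool.Agent.helper40.SU.SpecC

/-!
Row su:CJP (MP_c66272_nt): the number of the pairs of classes at a prime power.
-/

set_option autoImplicit false

open Finset

namespace Pool.Agent.SU

theorem CJP_fib (C : Finset (ℕ × ℕ)) (Y R : Finset ℕ) (P : ℕ → ℕ → Prop) [∀ y, DecidablePred (fun x => P x y)]
    (B : ℝ) (h : ∀ z ∈ C, z.2 ∈ Y ∧ z.1 ∈ R ∧ P z.1 z.2)
    (hB : ∀ y, ((R.filter (fun x => P x y)).card : ℝ) ≤ B) : (C.card : ℝ) ≤ Y.card * B := by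
  classical
  have h1 : C ⊆ Y.biUnion (fun y => (R.filter (fun x => P x y)).image (fun x => (x, y))) := by
    intro z hz
    obtain ⟨h2, h3, h4⟩ := h z hz
    rw [Finset.mem_biUnion]
    refine ⟨z.2, h2, ?_⟩
    rw [Finset.mem_image]
    exact ⟨z.1, Finset.mem_filter.mpr ⟨h3, h4⟩, rfl⟩
  have h2 : C.card ≤ ∑ y ∈ Y, (R.filter (fun x => P x y)).card := by
    refine (Finset.card_le_card h1).trans (Finset.card_biUnion_le.trans ?_)
    apply Finset.sum_le_sum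
    intro y _
    exact Finset.card_image_le
  have h3 : (C.card : ℝ) ≤ ∑ y ∈ Y, ((R.filter (fun x => P x y)).card : ℝ) := by exact_mod_cast h2
  refine h3.trans ?_
  refine (Finset.sum_le_sum (fun y _ => hB y)).trans ?_
  rw [Finset.sum_const, nsmul_eq_mul]

theorem CJP_mult (p k : ℕ) (_hp : p.Prime) :
    (((range (p ^ (k + 1))).filter (fun y => p ∣ y)).card : ℝ) ≤ (p : ℝ) ^ k := by
  have h : (range (p ^ (k + 1))).filter (fun y => p ∣ y) ⊆ (range (p ^ k)).image (fun x => p * x) := by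
    intro y hy
    rw [Finset.mem_filter, Finset.mem_range] at hy
    obtain ⟨h1, c, rfl⟩ := hy
    rw [Finset.mem_image]
    refine ⟨c, ?_, rfl⟩
    rw [Finset.mem_range]
    rw [pow_succ, mul_comm] at h1
    exact Nat.lt_of_mul_lt_mul_right h1
  have h2 := (Finset.card_le_card h).trans Finset.card_image_le
  rw [Finset.card_range] at h2
  exact_mod_cast h2

theorem CJP_gcd1 (p k D : ℕ) (hp : p.Prime) (h : ¬ p ∣ D) : D.gcd (p ^ (k + 1)) = 1 := by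
  have h1 : Nat.Coprime D p := ((Nat.Prime.coprime_iff_not_dvd hp).mpr h).symm
  exact Nat.Coprime.pow_right _ h1

theorem CJP_gcdp (p k D : ℕ) (hp : p.Prime) (hD : Squarefree D) (h : p ∣ D) : D.gcd (p ^ (k + 1)) = p := by
  obtain ⟨e, rfl⟩ := h
  have h1 : ¬ p ∣ e := by
    rintro ⟨f, rfl⟩
    have h2 := hD p ⟨f, by ring⟩
    exact hp.one_lt.ne' (Nat.isUnit_iff.mp h2)
  rw [pow_succ, mul_comm (p ^ k) p, Nat.gcd_mul_left]
  have h3 : Nat.Coprime e (p ^ k) := Nat.Coprime.pow_right _ ((Nat.Prime.coprime_iff_not_dvd hp).mpr h1).symm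
  rw [Nat.Coprime] at h3
  rw [h3, mul_one]

theorem CJP_one (hSQC : SQC_stmt) (p k D : ℕ) (c : ℤ) (hp : p.Prime) (hp2 : p ≠ 2) (hD : Squarefree D) :
    (((range (p ^ (k + 1))).filter (fun x : ℕ => ((p ^ (k + 1) : ℕ) : ℤ) ∣ (D : ℤ) * (x : ℤ) ^ 2 - c)).card : ℝ)
      ≤ 2 * √((p : ℝ) ^ (k + 1)) * √((D.gcd (p ^ (k + 1)) : ℕ) : ℝ) := by
  by_cases h : p ∣ D
  · rw [CJP_gcdp p k D hp hD h]
    obtain ⟨e, rfl⟩ := h
    have h1 : ¬ p ∣ e := by
      rintro ⟨f, rfl⟩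
      have h2 := hD p ⟨f, by ring⟩
      exact hp.one_lt.ne' (Nat.isUnit_iff.mp h2)
    have h1' : ¬ (p : ℤ) ∣ (e : ℤ) := by
      intro h2
      exact h1 (by exact_mod_cast h2)
    have hp0 : (p : ℤ) ≠ 0 := by exact_mod_cast hp.ne_zero
    by_cases hc : (p : ℤ) ∣ c
    · obtain ⟨c₁, rfl⟩ := hc
      have h3 := hSQC p k (e : ℤ) c₁ hp hp2 h1'
      have hpk : 0 < p ^ k := pow_pos hp.pos k
      have h4 : (range (p ^ (k + 1))).filter (fun x : ℕ => ((p ^ (k + 1) : ℕ) : ℤ) ∣ ((p * e : ℕ) : ℤ) * (x : ℤ) ^ 2 - p * c₁)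
          ⊆ ((range p) ×ˢ ((range (p ^ k)).filter (fun x : ℕ => ((p ^ k : ℕ) : ℤ) ∣ (e : ℤ) * (x : ℤ) ^ 2 - c₁))).image
            (fun z => z.1 * p ^ k + z.2) := by
        intro x hx
        rw [Finset.mem_filter, Finset.mem_range] at hx
        obtain ⟨hx1, hx2⟩ := hx
        rw [Finset.mem_image]
        refine ⟨(x / p ^ k, x % p ^ k), ?_, ?_⟩
        · rw [Finset.mem_product, Finset.mem_filter, Finset.mem_range, Finset.mem_range]
          refine ⟨?_, Nat.mod_lt _ hpk, ?_⟩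
          · apply Nat.div_lt_of_lt_mul
            rw [pow_succ] at hx1
            exact hx1
          · have h5 : ((p ^ k : ℕ) : ℤ) ∣ (e : ℤ) * (x : ℤ) ^ 2 - c₁ := by
              have h6 : ((p ^ (k + 1) : ℕ) : ℤ) = (p : ℤ) * ((p ^ k : ℕ) : ℤ) := by
                push_cast
                ring
              have h7 : ((p * e : ℕ) : ℤ) * (x : ℤ) ^ 2 - p * c₁ = (p : ℤ) * ((e : ℤ) * (x : ℤ) ^ 2 - c₁) := by
                push_cast
                ring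
              rw [h6, h7] at hx2
              exact Int.dvd_of_mul_dvd_mul_left hp0 hx2
            have h8 : ((p ^ k : ℕ) : ℤ) ∣ (x : ℤ) - ((x % p ^ k : ℕ) : ℤ) := by
              rw [Int.natCast_mod]
              exact Int.dvd_self_sub_emod
            have h9 : ((p ^ k : ℕ) : ℤ) ∣ (e : ℤ) * (x : ℤ) ^ 2 - (e : ℤ) * ((x % p ^ k : ℕ) : ℤ) ^ 2 := by
              have : (e : ℤ) * (x : ℤ) ^ 2 - (e : ℤ) * ((x % p ^ k : ℕ) : ℤ) ^ 2
                  = ((x : ℤ) - ((x % p ^ k : ℕ) : ℤ)) * (e * ((x : ℤ) + ((x % p ^ k : ℕ) : ℤ))) := by ring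
              rw [this]
              exact Dvd.dvd.mul_right h8 _
            have h10 : (e : ℤ) * ((x % p ^ k : ℕ) : ℤ) ^ 2 - c₁ = ((e : ℤ) * (x : ℤ) ^ 2 - c₁)
                - ((e : ℤ) * (x : ℤ) ^ 2 - (e : ℤ) * ((x % p ^ k : ℕ) : ℤ) ^ 2) := by ring
            rw [h10]
            exact dvd_sub h5 h9
        · exact Nat.div_add_mod' x (p ^ k)
      have h5 := (Finset.card_le_card h4).trans Finset.card_image_le
      rw [Finset.card_product, Finset.card_range] at h5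
      have h6 : (((range (p ^ (k + 1))).filter (fun x : ℕ => ((p ^ (k + 1) : ℕ) : ℤ) ∣ ((p * e : ℕ) : ℤ) * (x : ℤ) ^ 2 - p * c₁)).card : ℝ)
          ≤ p * (((range (p ^ k)).filter (fun x : ℕ => ((p ^ k : ℕ) : ℤ) ∣ (e : ℤ) * (x : ℤ) ^ 2 - c₁)).card : ℝ) := by
        exact_mod_cast h5
      refine h6.trans ?_
      have h7 : (p : ℝ) * (((range (p ^ k)).filter (fun x : ℕ => ((p ^ k : ℕ) : ℤ) ∣ (e : ℤ) * (x : ℤ) ^ 2 - c₁)).card : ℝ)
          ≤ p * (2 * √((p : ℝ) ^ k)) := mul_le_mul_of_nonneg_left h3 (by positivity)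
      refine h7.trans (le_of_eq ?_)
      have h8 : √((p : ℝ) ^ (k + 1)) = √((p : ℝ) ^ k) * √(p : ℝ) := by
        rw [pow_succ, Real.sqrt_mul (by positivity)]
      have h9 : √(p : ℝ) * √(p : ℝ) = p := Real.mul_self_sqrt (by positivity)
      rw [h8]
      calc (p : ℝ) * (2 * √((p : ℝ) ^ k)) = 2 * √((p : ℝ) ^ k) * (√(p : ℝ) * √(p : ℝ)) := by rw [h9]; ring
        _ = 2 * (√((p : ℝ) ^ k) * √(p : ℝ)) * √(p : ℝ) := by ring
    · have h3 : (range (p ^ (k + 1))).filter (fun x : ℕ => ((p ^ (k + 1) : ℕ) : ℤ) ∣ ((p * e : ℕ) : ℤ) * (x : ℤ) ^ 2 - c) = ∅ := by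
        rw [Finset.filter_eq_empty_iff]
        intro x _ h4
        apply hc
        have h5 : (p : ℤ) ∣ ((p ^ (k + 1) : ℕ) : ℤ) := by
          push_cast
          exact dvd_pow_self _ (by omega)
        have h6 := h5.trans h4
        have h7 : (p : ℤ) ∣ ((p * e : ℕ) : ℤ) * (x : ℤ) ^ 2 := by
          push_cast
          exact ⟨e * (x : ℤ) ^ 2, by ring⟩
        have h8 : c = ((p * e : ℕ) : ℤ) * (x : ℤ) ^ 2 - (((p * e : ℕ) : ℤ) * (x : ℤ) ^ 2 - c) := by ring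
        rw [h8]
        exact dvd_sub h7 h6
      rw [h3]
      simp only [Finset.card_empty, Nat.cast_zero]
      positivity
  · rw [CJP_gcd1 p k D hp h]
    have h1' : ¬ (p : ℤ) ∣ (D : ℤ) := by
      intro h2
      exact h (by exact_mod_cast h2)
    have h3 := hSQC p (k + 1) (D : ℤ) c hp hp2 h1'
    simpa using h3

theorem CJP_rhs (p k : ℕ) (hp : p.Prime) :
    ((p ^ (k + 1) : ℕ) : ℝ) ^ 2 * wj (p ^ (k + 1)) = 2 * (p : ℝ) ^ k * √((p : ℝ) ^ (k + 1)) := by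
  have h1 : (p ^ (k + 1)).primeFactors = {p} := by
    rw [Nat.primeFactors_pow _ (by omega), Nat.Prime.primeFactors hp]
  have hp0 : (0 : ℝ) < p := by exact_mod_cast hp.pos
  have hs : 0 < √((p : ℝ) ^ (k + 1)) := Real.sqrt_pos.mpr (by positivity)
  have hs2 : √((p : ℝ) ^ (k + 1)) ^ 2 = (p : ℝ) ^ (k + 1) := Real.sq_sqrt (by positivity)
  rw [wj, om, h1, Finset.card_singleton, Finset.prod_singleton]
  push_cast
  set s := √((p : ℝ) ^ (k + 1)) with hsdef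
  rw [← hs2]
  field_simp
  rw [hs2]
  ring

theorem CJP_le (g : ℝ) (hg : 1 ≤ g) : √g ≤ g ^ (3 / 4 : ℝ) := by
  rw [Real.sqrt_eq_rpow]
  exact Real.rpow_le_rpow_of_exponent_le hg (by norm_num)

theorem CJP (hSQC : SQC_stmt) : CJP_stmt := by
  intro p b D D' hp hp2 hb hD hD'
  obtain ⟨k, rfl⟩ : ∃ k, b = k + 1 := ⟨b - 1, by omega⟩
  rw [CJP_rhs p k hp]
  have hp0 : (0 : ℝ) < p := by exact_mod_cast hp.pos
  have hprime : (p : ℤ) ∣ ((p ^ (k + 1) : ℕ) : ℤ) := by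
    push_cast
    exact dvd_pow_self _ (by omega)
  have hmem : p ∈ (p ^ (k + 1)).primeFactors := by
    rw [Nat.primeFactors_pow _ (by omega), Nat.Prime.primeFactors hp]
    exact Finset.mem_singleton_self p
  have hgD : (1 : ℝ) ≤ ((D.gcd (p ^ (k + 1)) : ℕ) : ℝ) := by
    have : 1 ≤ D.gcd (p ^ (k + 1)) := Nat.gcd_pos_of_pos_right _ (pow_pos hp.pos _)
    exact_mod_cast this
  have hgD' : (1 : ℝ) ≤ ((D'.gcd (p ^ (k + 1)) : ℕ) : ℝ) := by
    have : 1 ≤ D'.gcd (p ^ (k + 1)) := Nat.gcd_pos_of_pos_right _ (pow_pos hp.pos _)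
    exact_mod_cast this
  have hs : 0 ≤ √((p : ℝ) ^ (k + 1)) := Real.sqrt_nonneg _
  by_cases h' : p ∣ D'
  · by_cases h : p ∣ D
    · -- both
      have hB : ∀ y : ℕ, (((range (p ^ (k + 1))).filter (fun x : ℕ => ((p ^ (k + 1) : ℕ) : ℤ) ∣
          (D : ℤ) * (x : ℤ) ^ 2 - (D' : ℤ) * (y : ℤ) ^ 2)).card : ℝ)
          ≤ 2 * √((p : ℝ) ^ (k + 1)) * √((D.gcd (p ^ (k + 1)) : ℕ) : ℝ) := fun y =>
        CJP_one hSQC p k D _ hp hp2 hD
      have h1 := CJP_fib (Cst (p ^ (k + 1)) D D') (range (p ^ (k + 1))) (range (p ^ (k + 1)))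
        (fun x y => ((p ^ (k + 1) : ℕ) : ℤ) ∣ (D : ℤ) * (x : ℤ) ^ 2 - (D' : ℤ) * (y : ℤ) ^ 2) _
        (by
          intro z hz
          rw [Cst, Finset.mem_filter, Finset.mem_product] at hz
          exact ⟨hz.1.2, hz.1.1, hz.2.1⟩) hB
      refine h1.trans (le_of_eq ?_)
      rw [Finset.card_range, gw, gw, CJP_gcdp p k D hp hD h, CJP_gcdp p k D' hp hD' h']
      push_cast
      have e1 : (p : ℝ) ^ (3 / 4 : ℝ) * (p : ℝ) ^ (3 / 4 : ℝ) = p * √(p : ℝ) := by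
        rw [Real.sqrt_eq_rpow, ← Real.rpow_add hp0]
        nth_rewrite 2 [← Real.rpow_one (p : ℝ)]
        rw [← Real.rpow_add hp0]
        norm_num
      calc (p : ℝ) ^ (k + 1) * (2 * √((p : ℝ) ^ (k + 1)) * √(p : ℝ))
          = 2 * (p : ℝ) ^ k * √((p : ℝ) ^ (k + 1)) * (p * √(p : ℝ)) := by ring
        _ = 2 * (p : ℝ) ^ k * √((p : ℝ) ^ (k + 1)) * ((p : ℝ) ^ (3 / 4 : ℝ) * (p : ℝ) ^ (3 / 4 : ℝ)) := by rw [e1]
        _ = _ := by ring
    · -- p | D' only: x is divisible by p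
      have hB : ∀ x : ℕ, (((range (p ^ (k + 1))).filter (fun y : ℕ => ((p ^ (k + 1) : ℕ) : ℤ) ∣
          (D' : ℤ) * (y : ℤ) ^ 2 - (D : ℤ) * (x : ℤ) ^ 2)).card : ℝ)
          ≤ 2 * √((p : ℝ) ^ (k + 1)) * √((D'.gcd (p ^ (k + 1)) : ℕ) : ℝ) := fun y =>
        CJP_one hSQC p k D' _ hp hp2 hD'
      have h1 := CJP_fib ((Cst (p ^ (k + 1)) D D').image Prod.swap) ((range (p ^ (k + 1))).filter (fun y => p ∣ y)) (range (p ^ (k + 1)))
        (fun y x => ((p ^ (k + 1) : ℕ) : ℤ) ∣ (D' : ℤ) * (y : ℤ) ^ 2 - (D : ℤ) * (x : ℤ) ^ 2) _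
        (by
          intro z hz
          rw [Finset.mem_image] at hz
          obtain ⟨w, hw, rfl⟩ := hz
          rw [Cst, Finset.mem_filter, Finset.mem_product] at hw
          refine ⟨?_, hw.1.2, ?_⟩
          · rw [Finset.mem_filter]
            refine ⟨hw.1.1, ?_⟩
            have := hw.2.2 p hmem
            exact (hp.dvd_mul.mp this).resolve_left h
          · have e : (D' : ℤ) * ((Prod.swap w).1 : ℤ) ^ 2 - (D : ℤ) * ((Prod.swap w).2 : ℤ) ^ 2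
                = -((D : ℤ) * (w.1 : ℤ) ^ 2 - (D' : ℤ) * (w.2 : ℤ) ^ 2) := by
              rw [Prod.fst_swap, Prod.snd_swap]
              ring
            rw [e]
            exact (dvd_neg).mpr hw.2.1) hB
      rw [Finset.card_image_of_injective _ Prod.swap_injective] at h1
      refine h1.trans ?_
      have h2 := CJP_mult p k hp
      have h3 : (((range (p ^ (k + 1))).filter (fun y => p ∣ y)).card : ℝ) *
          (2 * √((p : ℝ) ^ (k + 1)) * √((D'.gcd (p ^ (k + 1)) : ℕ) : ℝ))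
          ≤ (p : ℝ) ^ k * (2 * √((p : ℝ) ^ (k + 1)) * ((D'.gcd (p ^ (k + 1)) : ℕ) : ℝ) ^ (3 / 4 : ℝ)) := by
        apply mul_le_mul h2 _ (by positivity) (by positivity)
        exact mul_le_mul_of_nonneg_left (CJP_le _ hgD') (by positivity)
      refine h3.trans (le_of_eq ?_)
      rw [gw, gw, CJP_gcd1 p k D hp h, Nat.cast_one, Real.one_rpow]
      ring
  · -- p does not divide D'
    have hB : ∀ y : ℕ, (((range (p ^ (k + 1))).filter (fun x : ℕ => ((p ^ (k + 1) : ℕ) : ℤ) ∣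
        (D : ℤ) * (x : ℤ) ^ 2 - (D' : ℤ) * (y : ℤ) ^ 2)).card : ℝ)
        ≤ 2 * √((p : ℝ) ^ (k + 1)) * √((D.gcd (p ^ (k + 1)) : ℕ) : ℝ) := fun y =>
      CJP_one hSQC p k D _ hp hp2 hD
    have h1 := CJP_fib (Cst (p ^ (k + 1)) D D') ((range (p ^ (k + 1))).filter (fun y => p ∣ y)) (range (p ^ (k + 1)))
      (fun x y => ((p ^ (k + 1) : ℕ) : ℤ) ∣ (D : ℤ) * (x : ℤ) ^ 2 - (D' : ℤ) * (y : ℤ) ^ 2) _
      (by
        intro z hz
        rw [Cst, Finset.mem_filter, Finset.mem_product] at hz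
        refine ⟨?_, hz.1.1, hz.2.1⟩
        rw [Finset.mem_filter]
        refine ⟨hz.1.2, ?_⟩
        have h2 : (p : ℤ) ∣ (D : ℤ) * (z.1 : ℤ) := by
          have := hz.2.2 p hmem
          exact_mod_cast this
        have h3 : (p : ℤ) ∣ (D : ℤ) * (z.1 : ℤ) ^ 2 := by
          have : (D : ℤ) * (z.1 : ℤ) ^ 2 = ((D : ℤ) * (z.1 : ℤ)) * z.1 := by ring
          rw [this]
          exact Dvd.dvd.mul_right h2 _
        have h4 : (p : ℤ) ∣ (D' : ℤ) * (z.2 : ℤ) ^ 2 := by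
          have : (D' : ℤ) * (z.2 : ℤ) ^ 2 = (D : ℤ) * (z.1 : ℤ) ^ 2
            - ((D : ℤ) * (z.1 : ℤ) ^ 2 - (D' : ℤ) * (z.2 : ℤ) ^ 2) := by ring
          rw [this]
          exact dvd_sub h3 (hprime.trans hz.2.1)
        have h5 : p ∣ D' * z.2 ^ 2 := by exact_mod_cast h4
        exact hp.dvd_of_dvd_pow ((hp.dvd_mul.mp h5).resolve_left h')) hB
    refine h1.trans ?_
    have h2 := CJP_mult p k hp
    have h3 : (((range (p ^ (k + 1))).filter (fun y => p ∣ y)).card : ℝ) *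
        (2 * √((p : ℝ) ^ (k + 1)) * √((D.gcd (p ^ (k + 1)) : ℕ) : ℝ))
        ≤ (p : ℝ) ^ k * (2 * √((p : ℝ) ^ (k + 1)) * ((D.gcd (p ^ (k + 1)) : ℕ) : ℝ) ^ (3 / 4 : ℝ)) := by
      apply mul_le_mul h2 _ (by positivity) (by positivity)
      exact mul_le_mul_of_nonneg_left (CJP_le _ hgD) (by positivity)
    refine h3.trans (le_of_eq ?_)
    rw [gw, gw, CJP_gcd1 p k D' hp h', Nat.cast_one, Real.one_rpow]
    ring

end Pool.Agent.SU
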