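import Pool.Agent.helper40.SU.SpecC

/-!
Row su:COV (MP_c66272_nt): from multiplicative windows to initial segments.
-/

set_option autoImplicit false

open Finset

namespace Pool.Agent.SU

open Classical in
theorem COV_split (bad : ℕ → Prop) (N X M : ℕ) (hX : X ≤ M) :
    (((range (X + 1)).filter bad).card : ℝ) ≤ (((range (N + 1)).filter bad).card : ℝ)
      + (((Ioc N M).filter bad).card : ℝ) := by
  have h : (range (X + 1)).filter bad ⊆ (range (N + 1)).filter bad ∪ (Ioc N M).filter bad := by
    intro n hn
    rw [Finset.mem_filter, Finset.mem_range] at hn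
    rw [Finset.mem_union, Finset.mem_filter, Finset.mem_filter, Finset.mem_range, Finset.mem_Ioc]
    by_cases h : n ≤ N
    · left
      exact ⟨by omega, hn.2⟩
    · right
      exact ⟨⟨by omega, by omega⟩, hn.2⟩
  have h2 := (Finset.card_le_card h).trans (Finset.card_union_le _ _)
  exact_mod_cast h2

theorem COV : COV_stmt := by
  classical
  intro bad l β hl hl2 hβ h
  obtain ⟨N₀, hN₀⟩ := h
  have hl1 : 0 < l - 1 := by linarith
  have hl0 : 0 < l := by linarith
  set g : ℝ := 4 * β / (l - 1) with hg
  have hg0 : 0 ≤ g := by positivity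
  -- the threshold
  obtain ⟨N₁, hN₁⟩ : ∃ N₁ : ℕ, (∀ X : ℕ, N₁ < X → l * (N₀ + 1) ≤ X ∧ l ≤ X ∧ 2 * l / (l - 1) ≤ X ∧ 
      l * 2 / (l - 1) ≤ X ∧ l ≤ (l - 1) * X) := by
    obtain ⟨N₁, hN₁⟩ := exists_nat_ge (l * (N₀ + 1) + l + 2 * l / (l - 1) + l * 2 / (l - 1) + l / (l - 1))
    refine ⟨N₁, ?_⟩
    intro X hX
    have hX' : (N₁ : ℝ) < X := by exact_mod_cast hX
    have e1 : 0 ≤ l * ((N₀ : ℝ) + 1) := by positivity
    have e2 : 0 ≤ 2 * l / (l - 1) := by positivity
    have e3 : 0 ≤ l / (l - 1) := by positivity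
    have e4 : 0 ≤ l * 2 / (l - 1) := by positivity
    refine ⟨by linarith, by linarith, by linarith, by linarith, ?_⟩
    have e5 : l / (l - 1) ≤ X := by linarith
    rw [div_le_iff₀ hl1] at e5
    linarith
  refine ⟨N₁ + 1, ?_⟩
  intro X
  induction X using Nat.strong_induction_on with
  | _ X ih =>
    by_cases hX : X ≤ N₁
    · have h1 : ((((range (X + 1)).filter bad).card : ℕ) : ℝ) ≤ (X + 1 : ℕ) := by
        have := Finset.card_filter_le (range (X + 1)) bad
        rw [Finset.card_range] at this
        exact_mod_cast this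
      have h2 : ((X + 1 : ℕ) : ℝ) ≤ (N₁ : ℝ) + 1 := by
        push_cast
        have : (X : ℝ) ≤ N₁ := by exact_mod_cast hX
        linarith
      have h3 : 0 ≤ g * X := by positivity
      linarith
    · push Not at hX
      obtain ⟨a1, a2, a3, a4, a5⟩ := hN₁ X hX
      set N : ℕ := ⌈(X : ℝ) / l⌉₊ with hN
      have hN1 : (X : ℝ) / l ≤ N := Nat.le_ceil _
      have hN2 : (N : ℝ) < X / l + 1 := Nat.ceil_lt_add_one (by positivity)
      have hN3 : (N₀ : ℝ) ≤ N := by
        have : (N₀ : ℝ) + 1 ≤ X / l := by
          rw [le_div_iff₀ hl0]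
          linarith
        linarith
      have hN3' : N₀ ≤ N := by exact_mod_cast hN3
      have hN4 : (N : ℝ) < X := by
        have e : (X : ℝ) / l + 1 ≤ X := by
          have e2 : (X : ℝ) / l ≤ X - 1 := by
            rw [div_le_iff₀ hl0]
            nlinarith
          linarith
        linarith
      have hN4' : N < X := by exact_mod_cast hN4
      have hXM : X ≤ ⌊l * (N : ℝ)⌋₊ := by
        apply Nat.le_floor
        rw [div_le_iff₀ hl0] at hN1
        linarith
      have h1 := COV_split bad N X _ hXM
      have h2 := hN₀ N hN3'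
      have h3 := ih N hN4'
      have hβg : β = g * (l - 1) / 4 := by
        rw [hg]
        field_simp
      have h4 : (g + β) * (N : ℝ) ≤ g * X := by
        have e1 : (g + β) * (N : ℝ) ≤ (g + β) * (X / l + 1) :=
          mul_le_mul_of_nonneg_left hN2.le (by linarith)
        refine e1.trans ?_
        have e3 : (X : ℝ) / l * l = X := by field_simp
        have e4 : (1 + (l - 1) / 4) * ((X : ℝ) / l + 1) ≤ X := by
          set Y := (X : ℝ) / l with hY
          have hY0 : 2 / (l - 1) ≤ Y := by
            rw [hY, le_div_iff₀ hl0]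
            calc 2 / (l - 1) * l = l * 2 / (l - 1) := by ring
              _ ≤ X := a4
          rw [div_le_iff₀ hl1] at hY0
          have e5 : (X : ℝ) = Y * l := e3.symm
          rw [e5]
          nlinarith
        have e6 : (g + β) * ((X : ℝ) / l + 1) = g * ((1 + (l - 1) / 4) * ((X : ℝ) / l + 1)) := by
          rw [hβg]
          ring
        rw [e6]
        exact mul_le_mul_of_nonneg_left e4 hg0
      have h5 : (g + β) * (N : ℝ) = g * N + β * N := by ring
      linarith

end Pool.Agent.SU
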