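import Pool.Agent.helper40.SU.SpecC

/-!
Row su:CSW (MP_c66272_nt): Cauchy-Schwarz for the number of representations.
-/

set_option autoImplicit false

open Finset

namespace Pool.Agent.SU

theorem CSW_cs {α : Type} (A : Finset α) (f : α → ℕ) :
    ((A.card : ℝ)) ^ 2 ≤ (A.image f).card * ∑ x ∈ A, ∑ y ∈ A, (if f x = f y then (1 : ℝ) else 0) := by
  classical
  set r : ℕ → ℝ := fun n => ∑ y ∈ A, (if n = f y then (1 : ℝ) else 0) with hr
  have h1 : (A.card : ℝ) = ∑ n ∈ A.image f, r n := by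
    rw [hr, Finset.sum_comm]
    rw [Finset.card_eq_sum_ones, Nat.cast_sum]
    apply Finset.sum_congr rfl
    intro y hy
    rw [Finset.sum_ite_eq' (A.image f) (f y) (fun _ => (1 : ℝ))]
    rw [if_pos (Finset.mem_image_of_mem f hy)]
    norm_num
  have h2 : (∑ n ∈ A.image f, r n) ^ 2 ≤ (A.image f).card * ∑ n ∈ A.image f, r n ^ 2 :=
    sq_sum_le_card_mul_sum_sq
  have h3 : ∑ n ∈ A.image f, r n ^ 2 = ∑ x ∈ A, r (f x) := by
    have h4 : ∀ n ∈ A.image f, r n ^ 2 = ∑ x ∈ A with f x = n, r (f x) := by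
      intro n hn
      have h5 : ∑ x ∈ A with f x = n, r (f x) = ∑ x ∈ A with f x = n, r n := by
        apply Finset.sum_congr rfl
        intro x hx
        rw [(Finset.mem_filter.mp hx).2]
      rw [h5, Finset.sum_const, nsmul_eq_mul, pow_two]
      congr 1
      rw [hr, Finset.card_filter]
      push_cast
      apply Finset.sum_congr rfl
      intro x hx
      by_cases h : n = f x
      · rw [if_pos h, if_pos h.symm]
      · rw [if_neg h, if_neg (fun h' => h h'.symm)]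
    rw [Finset.sum_congr rfl h4]
    exact Finset.sum_fiberwise_of_maps_to (fun x hx => Finset.mem_image_of_mem f hx) _
  rw [h1]
  rw [h3] at h2
  exact h2

theorem CSW : CSW_stmt := by
  intro S q s₀ w₀ T δ
  set P : ℕ → Finset (ℕ × ℕ) := fun D => sW q s₀ T δ D ×ˢ wW q w₀ T δ with hP
  set A : Finset (Σ _ : ℕ, ℕ × ℕ) := S.sigma P with hA
  set f : (Σ _ : ℕ, ℕ × ℕ) → ℕ := fun x => x.1 * x.2.1 ^ 2 + 4 * x.2.2 ^ 2 with hf
  have h := CSW_cs A f
  have h1 : (A.card : ℝ) = ∑ D ∈ S, ((sW q s₀ T δ D).card : ℝ) * (wW q w₀ T δ).card := by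
    rw [hA, Finset.card_sigma]
    push_cast
    apply Finset.sum_congr rfl
    intro D _
    rw [hP]
    simp only [Finset.card_product, Nat.cast_mul]
  have h2 : (A.image f).card ≤ (Im S q s₀ w₀ T δ).card := by
    apply Finset.card_le_card
    intro n hn
    rw [Finset.mem_image] at hn
    obtain ⟨x, hx, hxn⟩ := hn
    rw [hA, Finset.mem_sigma] at hx
    rw [Im, Finset.mem_biUnion]
    exact ⟨x.1, hx.1, Finset.mem_image.mpr ⟨x.2, hx.2, hxn⟩⟩
  have h3 : ∑ x ∈ A, ∑ y ∈ A, (if f x = f y then (1 : ℝ) else 0)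
      = ∑ D ∈ S, ∑ D' ∈ S, ((QQ q s₀ w₀ T δ D D').card : ℝ) := by
    rw [hA, Finset.sum_sigma]
    apply Finset.sum_congr rfl
    intro D _
    have h4 : ∀ x ∈ P D, ∑ y ∈ S.sigma P, (if f ⟨D, x⟩ = f y then (1 : ℝ) else 0)
        = ∑ D' ∈ S, ∑ y ∈ P D', (if D * x.1 ^ 2 + 4 * x.2 ^ 2 = D' * y.1 ^ 2 + 4 * y.2 ^ 2 then (1 : ℝ) else 0) := by
      intro x _
      rw [Finset.sum_sigma]
    rw [Finset.sum_congr rfl h4, Finset.sum_comm]
    apply Finset.sum_congr rfl
    intro D' _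
    rw [QQ, Finset.card_filter]
    push_cast
    rw [Finset.sum_product (s := sW q s₀ T δ D ×ˢ wW q w₀ T δ)]
  rw [h1, h3] at h
  refine h.trans ?_
  apply mul_le_mul_of_nonneg_right
  · exact_mod_cast h2
  · apply Finset.sum_nonneg
    intro D _
    apply Finset.sum_nonneg
    intro D' _
    positivity

end Pool.Agent.SU
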